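import Pool.Agent.BLP.StmtsA

set_option autoImplicit false

/-!
# Squad BLP, row A_LOC: the last-passage value depends only on the increments
-/

namespace Pool.Agent.BLP.H30

open Pool.Agent.BLP

/-- LOC -/
theorem a_loc (pab : PabStmt) : LocStmt := by
  intro b b' c m n s t hmn hb
  have hen : ∀ τ : ℤ → ℝ, Pa m s n t τ → En b τ m n = En b' τ m n := by
    intro τ hτ
    obtain ⟨-, h2, -⟩ := pab m n s t τ hτ hmn
    unfold En
    refine Finset.sum_congr rfl fun r hr => ?_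
    obtain ⟨h3, h4⟩ := Finset.mem_Icc.1 hr
    obtain ⟨h5, h6⟩ := h2 r (by omega) h4
    obtain ⟨h7, h8⟩ := h2 (r - 1) (by omega) (by omega)
    rw [hb r h3 h4 _ h5 h6, hb r h3 h4 _ h7 h8]
    ring
  unfold L
  congr 1
  ext E
  constructor
  · rintro ⟨τ, h1, h2, h3, rfl⟩
    exact ⟨τ, h1, h2, h3, hen τ ⟨h1, h2, h3⟩⟩
  · rintro ⟨τ, h1, h2, h3, rfl⟩
    exact ⟨τ, h1, h2, h3, (hen τ ⟨h1, h2, h3⟩).symm⟩

end Pool.Agent.BLP.H30
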